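import Pool.Agent.H42.Bau5

open Cardinal Pool.Agent.H42.Bau Pool.Agent.H42.IMeag

theorem Pool.Agent.Results.MP_baa34e_lc.Bound.result (κ : Cardinal.{0}) (h0 : ℵ₀ < κ)
    (h1 : κ < 𝔠) (hw : BAw κ (ℕ → Bool)) :
    κ < bN ∨ (bN < κ ∧ covM < κ ∧ κ < nonMX (ℕ → Bool)) := by
  obtain ⟨A, hA⟩ := ex_kd h0.le h1.le
  obtain ⟨a, b⟩ := lt_b h0.le hA hw
  exact (le_or_gt κ (max bN covM)).imp b fun c => ⟨(max_lt_iff.1 c).1, (max_lt_iff.1 c).2, a⟩
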